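import Mathlib
import Pool.Agent.H56P.Cmp

/-!
# Clausen values of depth one
-/

set_option autoImplicit false

namespace Pool.Agent.H56Q

open Pool.Agent.H56P

/-- `ω = exp (π i / 3)` -/
noncomputable def omega : ℂ := Complex.exp (Real.pi * Complex.I / 3)

/-- the Clausen value `μ_a = Li_a(ω)` of depth one -/
noncomputable def mu (a : ℕ) : ℂ := ∑' m : ℕ, omega ^ (m + 1) / ((m : ℂ) + 1) ^ a

theorem omega_pow (n : ℕ) : omega ^ n = ((Real.cos (n * (Real.pi / 3)) : ℝ) : ℂ) +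
    ((Real.sin (n * (Real.pi / 3)) : ℝ) : ℂ) * Complex.I := by
  unfold omega
  rw [← Complex.exp_nat_mul]
  have h : (n : ℂ) * (Real.pi * Complex.I / 3) = ((n * (Real.pi / 3) : ℝ) : ℂ) * Complex.I := by
    push_cast
    ring
  rw [h, Complex.exp_mul_I, Complex.ofReal_cos, Complex.ofReal_sin]

theorem cos6 (q r : ℕ) : Real.cos (((6 * q + r : ℕ) : ℝ) * (Real.pi / 3)) = Real.cos ((r : ℝ) * (Real.pi / 3)) := by
  have h : ((6 * q + r : ℕ) : ℝ) * (Real.pi / 3) = (r : ℝ) * (Real.pi / 3) + q * (2 * Real.pi) := by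
    push_cast
    ring
  rw [h, Real.cos_add_nat_mul_two_pi]

theorem sin6 (q r : ℕ) : Real.sin (((6 * q + r : ℕ) : ℝ) * (Real.pi / 3)) = Real.sin ((r : ℝ) * (Real.pi / 3)) := by
  have h : ((6 * q + r : ℕ) : ℝ) * (Real.pi / 3) = (r : ℝ) * (Real.pi / 3) + q * (2 * Real.pi) := by
    push_cast
    ring
  rw [h, Real.sin_add_nat_mul_two_pi]

theorem cos_vals : Real.cos (((0 : ℕ) : ℝ) * (Real.pi / 3)) = 1 ∧ Real.cos (((1 : ℕ) : ℝ) * (Real.pi / 3)) = 1 / 2 ∧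
    Real.cos (((2 : ℕ) : ℝ) * (Real.pi / 3)) = -(1 / 2) ∧ Real.cos (((3 : ℕ) : ℝ) * (Real.pi / 3)) = -1 ∧
    Real.cos (((4 : ℕ) : ℝ) * (Real.pi / 3)) = -(1 / 2) ∧ Real.cos (((5 : ℕ) : ℝ) * (Real.pi / 3)) = 1 / 2 := by
  refine ⟨by simp, ?_, ?_, ?_, ?_, ?_⟩
  · rw [Nat.cast_one, one_mul, Real.cos_pi_div_three]
  · rw [show ((2 : ℕ) : ℝ) * (Real.pi / 3) = Real.pi - Real.pi / 3 by push_cast; ring, Real.cos_pi_sub,
      Real.cos_pi_div_three]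
  · rw [show ((3 : ℕ) : ℝ) * (Real.pi / 3) = Real.pi by push_cast; ring, Real.cos_pi]
  · rw [show ((4 : ℕ) : ℝ) * (Real.pi / 3) = Real.pi / 3 + Real.pi by push_cast; ring, Real.cos_add_pi,
      Real.cos_pi_div_three]
  · rw [show ((5 : ℕ) : ℝ) * (Real.pi / 3) = 2 * Real.pi - Real.pi / 3 by push_cast; ring, Real.cos_two_pi_sub,
      Real.cos_pi_div_three]

theorem sin_vals : Real.sin (((0 : ℕ) : ℝ) * (Real.pi / 3)) = 0 ∧ Real.sin (((1 : ℕ) : ℝ) * (Real.pi / 3)) = √3 / 2 ∧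
    Real.sin (((2 : ℕ) : ℝ) * (Real.pi / 3)) = √3 / 2 ∧ Real.sin (((3 : ℕ) : ℝ) * (Real.pi / 3)) = 0 ∧
    Real.sin (((4 : ℕ) : ℝ) * (Real.pi / 3)) = -(√3 / 2) ∧ Real.sin (((5 : ℕ) : ℝ) * (Real.pi / 3)) = -(√3 / 2) := by
  refine ⟨by simp, ?_, ?_, ?_, ?_, ?_⟩
  · rw [Nat.cast_one, one_mul, Real.sin_pi_div_three]
  · rw [show ((2 : ℕ) : ℝ) * (Real.pi / 3) = Real.pi - Real.pi / 3 by push_cast; ring, Real.sin_pi_sub,
      Real.sin_pi_div_three]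
  · rw [show ((3 : ℕ) : ℝ) * (Real.pi / 3) = Real.pi by push_cast; ring, Real.sin_pi]
  · rw [show ((4 : ℕ) : ℝ) * (Real.pi / 3) = Real.pi / 3 + Real.pi by push_cast; ring, Real.sin_add_pi,
      Real.sin_pi_div_three]
  · rw [show ((5 : ℕ) : ℝ) * (Real.pi / 3) = 2 * Real.pi - Real.pi / 3 by push_cast; ring, Real.sin_two_pi_sub,
      Real.sin_pi_div_three]

/-- `cos (n π / 3)` through divisibility -/
theorem cos_div (n : ℕ) : Real.cos ((n : ℝ) * (Real.pi / 3)) =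
    1 / 2 - (if 2 ∣ n then 1 else 0) - (3 / 2) * (if 3 ∣ n then 1 else 0) + 3 * (if 6 ∣ n then 1 else 0) := by
  obtain ⟨q, r, hr, rfl⟩ : ∃ q r, r < 6 ∧ n = 6 * q + r := ⟨n / 6, n % 6, Nat.mod_lt _ (by norm_num), by omega⟩
  rw [cos6]
  obtain ⟨c0, c1, c2, c3, c4, c5⟩ := cos_vals
  have h2 : (2 ∣ 6 * q + r) ↔ 2 ∣ r := by omega
  have h3 : (3 ∣ 6 * q + r) ↔ 3 ∣ r := by omega
  have h6 : (6 ∣ 6 * q + r) ↔ 6 ∣ r := by omega
  simp only [h2, h3, h6]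
  interval_cases r
  · rw [c0]; norm_num
  · rw [c1]; norm_num
  · rw [c2]; norm_num
  · rw [c3]; norm_num
  · rw [c4]; norm_num
  · rw [c5]; norm_num

theorem summable_pow {a : ℕ} (ha : 2 ≤ a) : Summable fun m : ℕ => 1 / ((m : ℝ) + 1) ^ a := by
  have h := (summable_nat_add_iff 1).2 (Real.summable_one_div_nat_pow.2 (show 1 < a by omega))
  simpa using h

theorem hasSum_mu {a : ℕ} (ha : 2 ≤ a) : HasSum (fun m : ℕ => omega ^ (m + 1) / ((m : ℂ) + 1) ^ a) (mu a) := by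
  refine Summable.hasSum (Summable.of_norm_bounded (summable_pow ha) fun m => ?_)
  have h1 : ‖omega‖ = 1 := by
    unfold omega
    rw [show (Real.pi * Complex.I / 3 : ℂ) = ((Real.pi / 3 : ℝ) : ℂ) * Complex.I by push_cast; ring,
      Complex.norm_exp_ofReal_mul_I]
  rw [norm_div, norm_pow, norm_pow, h1, one_pow]
  have h2 : ‖(m : ℂ) + 1‖ = (m : ℝ) + 1 := by
    rw [show (m : ℂ) + 1 = (((m : ℝ) + 1 : ℝ) : ℂ) by push_cast; rfl, Complex.norm_real, Real.norm_of_nonneg (by positivity)]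
  rw [h2]

theorem term_re (a m : ℕ) : (omega ^ (m + 1) / ((m : ℂ) + 1) ^ a).re =
    Real.cos (((m + 1 : ℕ) : ℝ) * (Real.pi / 3)) / (((m + 1 : ℕ) : ℝ)) ^ a := by
  rw [omega_pow, show ((m : ℂ) + 1) ^ a = (((((m + 1 : ℕ) : ℝ)) ^ a : ℝ) : ℂ) by push_cast; rfl, Complex.div_ofReal_re]
  generalize Real.cos (((m + 1 : ℕ) : ℝ) * (Real.pi / 3)) = x
  generalize Real.sin (((m + 1 : ℕ) : ℝ) * (Real.pi / 3)) = y
  simp

theorem term_im (a m : ℕ) : (omega ^ (m + 1) / ((m : ℂ) + 1) ^ a).im =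
    Real.sin (((m + 1 : ℕ) : ℝ) * (Real.pi / 3)) / (((m + 1 : ℕ) : ℝ)) ^ a := by
  rw [omega_pow, show ((m : ℂ) + 1) ^ a = (((((m + 1 : ℕ) : ℝ)) ^ a : ℝ) : ℂ) by push_cast; rfl, Complex.div_ofReal_im]
  generalize Real.cos (((m + 1 : ℕ) : ℝ) * (Real.pi / 3)) = x
  generalize Real.sin (((m + 1 : ℕ) : ℝ) * (Real.pi / 3)) = y
  simp

theorem hasSum_re {a : ℕ} (ha : 2 ≤ a) :
    HasSum (fun n : ℕ => Real.cos ((n : ℝ) * (Real.pi / 3)) / (n : ℝ) ^ a) (mu a).re := by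
  have h1 := Complex.hasSum_re (hasSum_mu ha)
  simp only [term_re] at h1
  rw [← hasSum_nat_add_iff' 1]
  have h0 : (0 : ℝ) ^ a = 0 := zero_pow (by omega)
  simpa [h0] using h1

theorem hasSum_im {a : ℕ} (ha : 2 ≤ a) :
    HasSum (fun n : ℕ => Real.sin ((n : ℝ) * (Real.pi / 3)) / (n : ℝ) ^ a) (mu a).im := by
  have h1 := Complex.hasSum_im (hasSum_mu ha)
  simp only [term_im] at h1
  rw [← hasSum_nat_add_iff' 1]
  simpa using h1

theorem hasSum_zeta {a : ℕ} (ha : 2 ≤ a) : HasSum (fun n : ℕ => 1 / (n : ℝ) ^ a) (zeta a) := by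
  have h1 : HasSum (fun m : ℕ => 1 / ((m : ℝ) + 1) ^ a) (zeta a) := (summable_pow ha).hasSum
  rw [← hasSum_nat_add_iff' 1]
  have h0 : (0 : ℝ) ^ a = 0 := zero_pow (by omega)
  simpa [h0] using h1

theorem hasSum_mult {a : ℕ} (ha : 2 ≤ a) (j : ℕ) (hj : 1 ≤ j) :
    HasSum (fun n : ℕ => (if j ∣ n then 1 else 0) * (1 / (n : ℝ) ^ a)) ((1 / (j : ℝ) ^ a) * zeta a) := by
  have hinj : Function.Injective (fun n : ℕ => j * n) := fun x y h => Nat.eq_of_mul_eq_mul_left (by omega) h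
  rw [← hinj.hasSum_iff]
  · have h1 := (hasSum_zeta ha).mul_left (1 / (j : ℝ) ^ a)
    have h2 : (fun n : ℕ => 1 / (j : ℝ) ^ a * (1 / (n : ℝ) ^ a)) =
        ((fun n : ℕ => (if j ∣ n then (1 : ℝ) else 0) * (1 / (n : ℝ) ^ a)) ∘ fun n : ℕ => j * n) := by
      funext n
      rw [Function.comp_apply, if_pos (Dvd.intro n rfl), one_mul, Nat.cast_mul, mul_pow, one_div_mul_one_div]
    rw [h2] at h1
    exact h1
  · intro n hn
    have h1 : ¬ j ∣ n := fun ⟨m, hm⟩ => hn ⟨m, hm.symm⟩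
    rw [if_neg h1, zero_mul]

/-- the real part of `μ_a` -/
theorem mu_re {a : ℕ} (ha : 2 ≤ a) : (mu a).re =
    (1 / 2 - 1 / 2 ^ a - (3 / 2) / 3 ^ a + 3 / 6 ^ a) * zeta a := by
  have h1 := (((hasSum_zeta ha).mul_left (1 / 2)).sub (hasSum_mult ha 2 (by norm_num))).sub
    ((hasSum_mult ha 3 (by norm_num)).mul_left (3 / 2)) |>.add ((hasSum_mult ha 6 (by norm_num)).mul_left 3)
  have h2 := hasSum_re ha
  have h3 : (fun n : ℕ => Real.cos ((n : ℝ) * (Real.pi / 3)) / (n : ℝ) ^ a) = fun n : ℕ =>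
      1 / 2 * (1 / (n : ℝ) ^ a) - (if 2 ∣ n then 1 else 0) * (1 / (n : ℝ) ^ a) -
        3 / 2 * ((if 3 ∣ n then 1 else 0) * (1 / (n : ℝ) ^ a)) + 3 * ((if 6 ∣ n then 1 else 0) * (1 / (n : ℝ) ^ a)) := by
    funext n
    rw [cos_div]
    ring
  rw [h3] at h2
  rw [h2.unique h1]
  push_cast
  ring

/-- the rational number `½ (1 - 2^(1-a)) (1 - 3^(1-a))` -/
def cc (a : ℕ) : ℚ := 1 / 2 - 1 / 2 ^ a - (3 / 2) / 3 ^ a + 3 / 6 ^ a

theorem mu_re' {a : ℕ} (ha : 2 ≤ a) : (mu a).re = (cc a : ℝ) * zeta a := by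
  rw [mu_re ha]
  unfold cc
  push_cast
  ring

theorem cc_ne {a : ℕ} (ha : 2 ≤ a) : cc a ≠ 0 := by
  have h1 : cc a = 1 / 2 * (1 - 2 / 2 ^ a) * (1 - 3 / 3 ^ a) := by
    unfold cc
    rw [show (6 : ℚ) = 2 * 3 by norm_num, mul_pow]
    field_simp
    ring
  have h2 : (4 : ℚ) ≤ 2 ^ a := by
    calc (4 : ℚ) = 2 ^ 2 := by norm_num
      _ ≤ 2 ^ a := pow_le_pow_right₀ (by norm_num) ha
  have h3 : (9 : ℚ) ≤ 3 ^ a := by
    calc (9 : ℚ) = 3 ^ 2 := by norm_num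
      _ ≤ 3 ^ a := pow_le_pow_right₀ (by norm_num) ha
  have h4 : (2 : ℚ) / 2 ^ a < 1 := by
    rw [div_lt_one (by positivity)]
    linarith
  have h5 : (3 : ℚ) / 3 ^ a < 1 := by
    rw [div_lt_one (by positivity)]
    linarith
  rw [h1]
  refine mul_ne_zero (mul_ne_zero (by norm_num) ?_) ?_ <;> linarith

theorem mu_im_odd (k : ℕ) (hk : k ≠ 0) : ∃ R : ℚ, (mu (2 * k + 1)).im = R * Real.pi ^ (2 * k + 1) := by
  have h1 := hasSum_one_div_nat_pow_mul_sin hk (x := 1 / 6) ⟨by norm_num, by norm_num⟩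
  have h2 := hasSum_im (a := 2 * k + 1) (by omega)
  have h3 : (fun n : ℕ => 1 / (n : ℝ) ^ (2 * k + 1) * Real.sin (2 * Real.pi * n * (1 / 6))) =
      fun n : ℕ => Real.sin ((n : ℝ) * (Real.pi / 3)) / (n : ℝ) ^ (2 * k + 1) := by
    funext n
    rw [show 2 * Real.pi * n * (1 / 6) = (n : ℝ) * (Real.pi / 3) by ring]
    ring
  rw [h3] at h1
  have h4 : (Polynomial.map (algebraMap ℚ ℝ) (Polynomial.bernoulli (2 * k + 1))).eval (1 / 6 : ℝ) =
      (((Polynomial.bernoulli (2 * k + 1)).eval (1 / 6 : ℚ) : ℚ) : ℝ) := by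
    rw [Polynomial.eval_map, show (1 / 6 : ℝ) = algebraMap ℚ ℝ (1 / 6) by simp, Polynomial.eval₂_at_apply]
    simp
  refine ⟨(-1) ^ (k + 1) * 2 ^ (2 * k + 1) / 2 / (2 * k + 1).factorial *
    (Polynomial.bernoulli (2 * k + 1)).eval (1 / 6 : ℚ), ?_⟩
  rw [h2.unique h1, h4]
  push_cast
  rw [mul_pow]
  ring

theorem mu_im_pos {a : ℕ} (ha : 2 ≤ a) : 0 < (mu a).im := by
  obtain ⟨T, hT⟩ : ∃ T : ℕ → ℝ, T = fun n : ℕ => Real.sin ((n : ℝ) * (Real.pi / 3)) / (n : ℝ) ^ a := ⟨_, rfl⟩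
  have hs : 0 < √3 / 2 := by positivity
  obtain ⟨s, hs'⟩ : ∃ s : ℝ, s = √3 / 2 := ⟨_, rfl⟩
  rw [← hs'] at hs
  obtain ⟨s0, s1, s2, s3, s4, s5⟩ := sin_vals
  rw [← hs'] at s1 s2 s4 s5
  have hblock : ∀ N : ℕ, ∑ i ∈ Finset.range (6 * (N + 1)), T i = ∑ i ∈ Finset.range (6 * N), T i +
      (s / ((6 * N + 1 : ℕ) : ℝ) ^ a - s / ((6 * N + 4 : ℕ) : ℝ) ^ a +
        (s / ((6 * N + 2 : ℕ) : ℝ) ^ a - s / ((6 * N + 5 : ℕ) : ℝ) ^ a)) := by
    intro N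
    have e : ∀ r : ℕ, T (6 * N + r) = Real.sin ((r : ℝ) * (Real.pi / 3)) / ((6 * N + r : ℕ) : ℝ) ^ a := by
      intro r
      rw [hT]
      change Real.sin (((6 * N + r : ℕ) : ℝ) * (Real.pi / 3)) / _ = _
      rw [sin6]
    have e0 : T (6 * N) = 0 := by
      have := e 0
      rw [s0, zero_div] at this
      exact this
    rw [show 6 * (N + 1) = 6 * N + 1 + 1 + 1 + 1 + 1 + 1 by ring, Finset.sum_range_succ, Finset.sum_range_succ,
      Finset.sum_range_succ, Finset.sum_range_succ, Finset.sum_range_succ, Finset.sum_range_succ]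
    simp only [add_assoc, Nat.reduceAdd]
    rw [e0, e 1, e 2, e 3, e 4, e 5, s1, s2, s3, s4, s5]
    ring
  have hpos : ∀ N i j : ℕ, 0 < i → i ≤ j → s / ((6 * N + j : ℕ) : ℝ) ^ a ≤ s / ((6 * N + i : ℕ) : ℝ) ^ a := by
    intro N i j hi hij
    have h1 : (0 : ℝ) < ((6 * N + i : ℕ) : ℝ) := by
      have : 0 < 6 * N + i := by omega
      exact_mod_cast this
    refine div_le_div_of_nonneg_left hs.le (pow_pos h1 _) ?_
    refine pow_le_pow_left₀ h1.le ?_ _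
    exact_mod_cast (by omega : 6 * N + i ≤ 6 * N + j)
  have hmono : ∀ N : ℕ, ∑ i ∈ Finset.range 6, T i ≤ ∑ i ∈ Finset.range (6 * (N + 1)), T i := by
    intro N
    induction N with
    | zero => exact le_rfl
    | succ N ih =>
      rw [hblock (N + 1)]
      have h1 := hpos (N + 1) 1 4 (by norm_num) (by norm_num)
      have h2 := hpos (N + 1) 2 5 (by norm_num) (by norm_num)
      linarith
  have h6 : 0 < ∑ i ∈ Finset.range 6, T i := by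
    have h0 := hblock 0
    rw [show 6 * (0 + 1) = 6 by norm_num, show 6 * 0 = 0 by norm_num, Finset.sum_range_zero, zero_add] at h0
    rw [h0]
    have h2 := hpos 0 2 5 (by norm_num) (by norm_num)
    have h1 : s / ((0 + 4 : ℕ) : ℝ) ^ a < s / ((0 + 1 : ℕ) : ℝ) ^ a := by
      norm_num
      have h3 : (1 : ℝ) < 4 ^ a := one_lt_pow₀ (by norm_num) (by omega)
      rw [div_lt_iff₀ (by positivity)]
      nlinarith
    simp only [mul_zero, zero_add] at h2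
    simp only [zero_add] at h1 ⊢
    linarith
  have hlim := (hasSum_im ha).tendsto_sum_nat
  rw [← hT] at hlim
  have hlim2 : Filter.Tendsto (fun N : ℕ => ∑ i ∈ Finset.range (6 * (N + 1)), T i) Filter.atTop (nhds (mu a).im) := by
    refine hlim.comp ?_
    refine Filter.tendsto_atTop_mono (fun N => ?_) Filter.tendsto_id
    change N ≤ 6 * (N + 1)
    omega
  exact lt_of_lt_of_le h6 (ge_of_tendsto' hlim2 hmono)

end Pool.Agent.H56Q
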