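import Mathlib
import Pool.Agent.H56P.Cmp
import Pool.Agent.H56Q.Mu

/-!
# Comparison isomorphisms of mixed Tate motives over `ℚ(√-3)`, Clausen values, and the properties of the torsors
-/

set_option autoImplicit false

namespace Pool.Agent.H56Q

open Pool.Agent.H56P hiding Generator degree Comparison InClass OddIrrational Generated NoSmallerTorsor FullyFaithful
  PeriodConjecture ClosuresAreTorsors one_le_degree cut tau_tr mem_cut ind_of_irr irr_of_ind generated_of_ind
  torsor_of_generated full_of_torsor ind_of_full' tfae period_iff irr_six irr_eight nonempty_comparison exists_generators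

/-- the generators of the Lie algebra: the primes and the numbers `k + 2` -/
abbrev Generator : Type := Nat.Primes ⊕ ℕ

/-- the degree of the generators -/
def degree : Generator → ℕ
  | .inl _ => 1
  | .inr k => k + 2

/-- comparison isomorphisms -/
structure Comparison where
  /-- the isomorphisms, relative to a rational isomorphism of the fibre functors -/
  x : Point degree
  tate : ∃ q : ℚ, q ≠ 0 ∧ tau x = q / (2 * Real.pi * Complex.I)
  clausen : ∀ k : ℕ, ∃ a b : ℚ, a ≠ 0 ∧ per x (.inr k) = a * mu (k + 2) * tau x ^ (k + 2) + b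
  prime : ∀ p : Nat.Primes, ∃ a b : ℚ, a ≠ 0 ∧ per x (.inl p) = a * Real.log p * tau x + b

/-- only the generators in `S` act, and the degrees lie in an interval of length `D` -/
def InClass {ι : Type} (S : Set Generator) (D : ℕ∞) (M : Mot degree ι) : Prop :=
  (∀ l, M.N l ≠ 0 → l ∈ S) ∧ ∀ i j, ((M.deg i - M.deg j).toNat : ℕ∞) ≤ D

/-- the odd zeta values for the generators in `S` of degree at most `D` are irrational -/
def OddIrrational (S : Set Generator) (D : ℕ∞) : Prop :=
  ∀ k : ℕ, .inr (2 * k + 1) ∈ S → ((2 * k + 3 : ℕ) : ℕ∞) ≤ D → Irrational (zeta (2 * k + 3))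

/-- the elements `x⁻¹ s(x)` generate the group of `M` -/
def Generated (C : Comparison) (S : Set Generator) (D : ℕ∞) : Prop :=
  ∀ (ι : Type) [Fintype ι] [DecidableEq ι] (M : Mot degree ι), InClass S D M →
    conj (C.x.val M) = gal M

/-- a torsor over `ℚ` that contains the comparison isomorphism contains the motivic torsor -/
def NoSmallerTorsor (C : Comparison) (S : Set Generator) (D : ℕ∞) : Prop :=
  ∀ (ι : Type) [Fintype ι] [DecidableEq ι] (M : Mot degree ι), InClass S D M →
    ∀ X : Set (GL ι ℂ), RatClosed X → Heap X → C.x.val M ∈ X → (gal M : Set (GL ι ℂ)) ⊆ X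

/-- the de Rham-Betti realization is fully faithful -/
def FullyFaithful (C : Comparison) (S : Set Generator) (D : ℕ∞) : Prop :=
  ∀ (ι κ : Type) [Fintype ι] [DecidableEq ι] [Fintype κ] [DecidableEq κ] (M : Mot degree ι)
    (M' : Mot degree κ), InClass S D (M.sum M') → ∀ FB FdR : Matrix κ ι ℚ,
    cx FB * (C.x.val M : Matrix ι ι ℂ) = (C.x.val M' : Matrix κ κ ℂ) * cx FdR →
    FB = FdR ∧ IsMor M M' FB

/-- the period map is injective -/
def PeriodConjecture (C : Comparison) (S : Set Generator) (D : ℕ∞) : Prop :=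
  ∀ (ι : Type) [Fintype ι] [DecidableEq ι] (M : Mot degree ι), InClass S D M →
    ∀ p : MvPolynomial (ι × ι) ℚ, ev (C.x.val M) p = 0 → ∀ g ∈ gal M, ev g p = 0

/-- the closures of the comparison isomorphisms are torsors -/
def ClosuresAreTorsors (C : Comparison) (S : Set Generator) (D : ℕ∞) : Prop :=
  ∀ (ι : Type) [Fintype ι] [DecidableEq ι] (M : Mot degree ι), InClass S D M →
    Heap (closure (C.x.val M))

theorem one_le_degree (l : Generator) : 1 ≤ degree l := by
  rcases l with p | k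
  · exact le_rfl
  · change 1 ≤ k + 2
    omega

/-- the generators in `S` of degree at most `D` -/
def cut (S : Set Generator) (D : ℕ∞) : Set Generator := {l | l ∈ S ∧ ((degree l : ℕ) : ℕ∞) ≤ D}

theorem tau_tr (C : Comparison) : Transcendental ℚ (tau C.x) := by
  obtain ⟨q, hq, h⟩ := C.tate
  exact tau_transc q hq _ h

theorem mem_cut {ι : Type} [Fintype ι] [DecidableEq ι] {S : Set Generator} {D : ℕ∞}
    {M : Mot degree ι} (hM : InClass S D M) (l : Generator) (hl : M.N l ≠ 0) : l ∈ cut S D := by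
  refine ⟨hM.1 l hl, ?_⟩
  obtain ⟨i, j, hij⟩ : ∃ i j, M.N l i j ≠ 0 := by
    by_contra h
    push Not at h
    exact hl (by ext i j; exact h i j)
  have h1 := M.raises l i j hij
  have h2 := hM.2 i j
  rw [h1, add_sub_cancel_left, Int.toNat_natCast] at h2
  exact h2

theorem tau_eq (q : ℚ) (hq : q ≠ 0) (τ : ℂ) (hτ : τ = q / (2 * Real.pi * Complex.I)) :
    ∃ y : ℝ, y ≠ 0 ∧ τ = -(y : ℂ) * Complex.I := by
  refine ⟨q / (2 * Real.pi), ?_, ?_⟩
  · have : (q : ℝ) ≠ 0 := by exact_mod_cast hq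
    exact div_ne_zero this (by positivity)
  · rw [hτ]
    push_cast
    have h2 : (2 * (Real.pi : ℂ)) ≠ 0 := by
      have := Real.pi_ne_zero
      have h3 : (Real.pi : ℂ) ≠ 0 := by exact_mod_cast this
      exact mul_ne_zero two_ne_zero h3
    have hI := Complex.I_ne_zero
    field_simp
    linear_combination Complex.I_sq

theorem re_zero (q : ℚ) (hq : q ≠ 0) (τ : ℂ) (hτ : τ = q / (2 * Real.pi * Complex.I)) (m : ℕ)
    (z : ℂ) (R : ℚ) (h : z * τ ^ (2 * m + 1) = R) : z.re = 0 := by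
  obtain ⟨y, hy, rfl⟩ := tau_eq q hq τ hτ
  have h2 : (-(y : ℂ) * Complex.I) ^ (2 * m + 1) = (((-y ^ 2) ^ m * (-y) : ℝ) : ℂ) * Complex.I := by
    rw [pow_succ, pow_mul, mul_pow, Complex.I_sq]
    push_cast
    ring
  rw [h2, ← mul_assoc, mul_comm z, mul_assoc] at h
  have h3 := congrArg Complex.im h
  have h5 : ((R : ℂ)).im = 0 := by
    have : (R : ℂ) = ((R : ℝ) : ℂ) := by push_cast; rfl
    rw [this, Complex.ofReal_im]
  rw [h5, Complex.im_ofReal_mul, Complex.mul_I_im] at h3
  exact (mul_eq_zero.1 h3).resolve_left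
    (mul_ne_zero (pow_ne_zero _ (neg_ne_zero.2 (pow_ne_zero _ hy))) (neg_ne_zero.2 hy))

theorem im_zero (q : ℚ) (hq : q ≠ 0) (τ : ℂ) (hτ : τ = q / (2 * Real.pi * Complex.I)) (m : ℕ)
    (z : ℂ) (R : ℚ) (h : z * τ ^ (2 * m) = R) : z.im = 0 := by
  obtain ⟨y, hy, rfl⟩ := tau_eq q hq τ hτ
  have h2 : (-(y : ℂ) * Complex.I) ^ (2 * m) = (((-y ^ 2) ^ m : ℝ) : ℂ) := by
    rw [pow_mul, mul_pow, Complex.I_sq]
    push_cast
    ring
  rw [h2, mul_comm] at h
  have h3 := congrArg Complex.im h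
  have h5 : ((R : ℂ)).im = 0 := by
    have : (R : ℂ) = ((R : ℝ) : ℂ) := by push_cast; rfl
    rw [this, Complex.ofReal_im]
  rw [h5, Complex.im_ofReal_mul] at h3
  exact (mul_eq_zero.1 h3).resolve_left (pow_ne_zero _ (neg_ne_zero.2 (pow_ne_zero _ hy)))

/-- `i π^d τ^d` is rational for odd `d` -/
theorem pi_tau (q : ℚ) (τ : ℂ) (hτ : τ = q / (2 * Real.pi * Complex.I)) (m : ℕ) :
    Complex.I * (Real.pi : ℂ) ^ (2 * m + 1) * τ ^ (2 * m + 1) = (((q / 2) ^ (2 * m + 1) * (-1) ^ m : ℚ) : ℂ) := by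
  have hpi : (Real.pi : ℂ) ≠ 0 := by exact_mod_cast Real.pi_ne_zero
  have h1 : (Real.pi : ℂ) * τ = -((q : ℂ) / 2) * Complex.I := by
    rw [hτ]
    have hI := Complex.I_ne_zero
    field_simp
    linear_combination (q : ℂ) * Complex.I_sq
  rw [mul_assoc, ← mul_pow, h1, pow_succ, pow_mul, mul_pow, Complex.I_sq]
  push_cast
  have h2 : Complex.I * ((-((q : ℂ) / 2)) ^ 2 * -1) ^ m * (-((q : ℂ) / 2) * Complex.I) =
      (((q : ℂ) / 2) ^ 2 * -1) ^ m * (((q : ℂ) / 2)) * (-(Complex.I ^ 2)) := by ring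
  rw [← mul_assoc, h2, Complex.I_sq, mul_pow, pow_succ ((q : ℂ) / 2) (2 * m), pow_mul]
  ring

theorem ind_of_irr (C : Comparison) (S : Set Generator) (D : ℕ∞) (h : OddIrrational S D) :
    Ind C.x (cut S D) := by
  classical
  obtain ⟨q₀, hq₀, hτ⟩ := C.tate
  rintro d r hr ⟨p, q, hpq⟩
  by_contra hr0
  obtain ⟨l₀, hl₀⟩ := Finsupp.support_nonempty_iff.2 hr0
  rcases l₀ with p₀ | k
  · -- degree one
    have hd : d = 1 := (hr _ hl₀).2.symm
    subst hd
    have hall : ∀ l ∈ r.support, ∃ p : Nat.Primes, l = Sum.inl p := by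
      intro l hl
      rcases l with p | k
      · exact ⟨p, rfl⟩
      · have := (hr _ hl).2
        change k + 2 = 1 at this
        omega
    choose a b ha hab using C.prime
    obtain ⟨lg, hlg⟩ : ∃ lg : Nat.Primes → ℝ, ∀ i : Nat.Primes, Real.log (i : ℕ) = lg i :=
      ⟨_, fun _ => rfl⟩
    set s : Finset Nat.Primes := r.support.preimage Sum.inl Sum.inl_injective.injOn with hs
    have hsum : (r.sum fun l c => (c : ℂ) * per C.x l) =
        ∑ i ∈ s, (r (Sum.inl i) : ℂ) * per C.x (Sum.inl i) := by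
      rw [Finsupp.sum, hs]
      rw [Finset.sum_preimage Sum.inl r.support Sum.inl_injective.injOn
        (fun l => (r l : ℂ) * per C.x l)]
      intro l hl hn
      obtain ⟨i, rfl⟩ := hall l hl
      exact absurd ⟨i, rfl⟩ hn
    have h1 : (((∑ i ∈ s, ((r (Sum.inl i) * a i : ℚ) : ℝ) * lg i) - (q : ℝ) : ℝ) : ℂ) *
        tau C.x ^ (2 * 0 + 1) = ((p - ∑ i ∈ s, r (Sum.inl i) * b i : ℚ) : ℂ) := by
      rw [hsum] at hpq
      simp only [hab, hlg] at hpq
      push_cast
      rw [Finset.sum_congr rfl (fun i _ => show (r (Sum.inl i) : ℂ) *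
        ((a i : ℂ) * (lg i : ℂ) * tau C.x + (b i : ℂ)) =
        (r (Sum.inl i) : ℂ) * (a i : ℂ) * (lg i : ℂ) * tau C.x +
          (r (Sum.inl i) : ℂ) * (b i : ℂ) by ring), Finset.sum_add_distrib, ← Finset.sum_mul] at hpq
      linear_combination hpq
    have h2 := real_mul q₀ hq₀ _ hτ 0 _ _ h1
    have h3 := log_indep s (fun i => r (Sum.inl i) * a i) q (by simp only [hlg]; linarith) p₀ (by
      rw [hs, Finset.mem_preimage]
      exact hl₀)
    exact (mul_ne_zero (Finsupp.mem_support_iff.1 hl₀) (ha p₀)) h3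
  · -- degree at least two
    have hd : d = k + 2 := (hr _ hl₀).2.symm
    subst hd
    have hall : ∀ l ∈ r.support, l = Sum.inr k := by
      intro l hl
      rcases l with p | k'
      · have := (hr _ hl).2
        change 1 = k + 2 at this
        omega
      · have := (hr _ hl).2
        change k' + 2 = k + 2 at this
        rw [show k' = k by omega]
    obtain ⟨a, b, ha, hab⟩ := C.clausen k
    have hr1 : r = Finsupp.single (Sum.inr k) (r (Sum.inr k)) := by
      ext l
      by_cases hl : l = Sum.inr k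
      · rw [hl, Finsupp.single_eq_same]
      · rw [Finsupp.single_eq_of_ne hl]
        by_contra h1
        exact hl (hall l (Finsupp.mem_support_iff.2 h1))
    set ρ := r (Sum.inr k) with hρ
    have hρ0 : ρ ≠ 0 := Finsupp.mem_support_iff.1 hl₀
    have h3 : (ρ : ℝ) ≠ 0 := by exact_mod_cast hρ0
    have h4 : (a : ℝ) ≠ 0 := by exact_mod_cast ha
    rw [hr1, Finsupp.sum_single_index (by simp), hab] at hpq
    have h1 : (((ρ * a : ℚ) : ℝ) * mu (k + 2) - ((q : ℝ) : ℂ)) * tau C.x ^ (k + 2) = ((p - ρ * b : ℚ) : ℂ) := by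
      push_cast
      linear_combination hpq
    have hre : ((((ρ * a : ℚ) : ℝ) * mu (k + 2) - ((q : ℝ) : ℂ)) : ℂ).re = (ρ * a : ℚ) * (mu (k + 2)).re - q := by
      rw [Complex.sub_re, Complex.re_ofReal_mul, Complex.ofReal_re]
    have him : ((((ρ * a : ℚ) : ℝ) * mu (k + 2) - ((q : ℝ) : ℂ)) : ℂ).im = (ρ * a : ℚ) * (mu (k + 2)).im := by
      rw [Complex.sub_im, Complex.im_ofReal_mul, Complex.ofReal_im, sub_zero]
    rcases Nat.even_or_odd' k with ⟨j, rfl | rfl⟩
    · have h2 := im_zero q₀ hq₀ _ hτ (j + 1) _ _ (by rw [show 2 * (j + 1) = 2 * j + 2 by ring]; exact h1)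
      rw [him] at h2
      have h5 := mu_im_pos (a := 2 * j + 2) (by omega)
      push_cast at h2
      exact (mul_ne_zero (mul_ne_zero h3 h4) h5.ne') h2
    · have h2 := re_zero q₀ hq₀ _ hτ (j + 1) _ _ (by rw [show 2 * (j + 1) + 1 = 2 * j + 1 + 2 by ring]; exact h1)
      rw [hre, mu_re' (by omega)] at h2
      have hc : (cc (2 * j + 1 + 2) : ℝ) ≠ 0 := by exact_mod_cast cc_ne (a := 2 * j + 1 + 2) (by omega)
      refine h j (hr _ hl₀).1.1 (hr _ hl₀).1.2 ⟨q / (ρ * a * cc (2 * j + 1 + 2)), ?_⟩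
      rw [show 2 * j + 3 = 2 * j + 1 + 2 by ring]
      push_cast at h2 ⊢
      field_simp
      linarith

theorem irr_of_ind (C : Comparison) (S : Set Generator) (D : ℕ∞) (h : Ind C.x (cut S D)) :
    OddIrrational S D := by
  rintro k hk hkD ⟨ρ, hρ⟩
  obtain ⟨a, b, ha, hab⟩ := C.clausen (2 * k + 1)
  obtain ⟨q₀, hq₀, hτ⟩ := C.tate
  obtain ⟨R, hR⟩ := mu_im_odd (k + 1) (Nat.succ_ne_zero k)
  have hmu : mu (2 * k + 1 + 2) = ((cc (2 * k + 1 + 2) * ρ : ℚ) : ℂ) +
      (R : ℂ) * (Real.pi : ℂ) ^ (2 * (k + 1) + 1) * Complex.I := by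
    rw [show 2 * (k + 1) + 1 = 2 * k + 1 + 2 by ring] at hR ⊢
    have h1 : (mu (2 * k + 1 + 2)).re = cc (2 * k + 1 + 2) * ρ := by
      rw [mu_re' (by omega), hρ, show 2 * k + 1 + 2 = 2 * k + 3 by ring]
    rw [← Complex.re_add_im (mu (2 * k + 1 + 2)), h1, hR]
    push_cast
    ring
  have h0 := pi_tau q₀ (tau C.x) hτ (k + 1)
  have h1 := h (2 * k + 1 + 2) (Finsupp.single (Sum.inr (2 * k + 1)) 1) (by
    intro l hl
    have hl' : l = Sum.inr (2 * k + 1) := by
      by_contra h2
      rw [Finsupp.mem_support_iff, Finsupp.single_eq_of_ne h2] at hl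
      exact hl rfl
    rw [hl']
    exact ⟨⟨hk, hkD⟩, rfl⟩) ⟨a * R * ((q₀ / 2) ^ (2 * (k + 1) + 1) * (-1) ^ (k + 1)) + b,
      a * (cc (2 * k + 1 + 2) * ρ), by
      rw [Finsupp.sum_single_index (by simp), hab, hmu]
      rw [show 2 * (k + 1) + 1 = 2 * k + 1 + 2 by ring] at h0 ⊢
      push_cast at h0 ⊢
      linear_combination (a : ℂ) * R * h0⟩
  have h2 := DFunLike.congr_fun h1 (Sum.inr (2 * k + 1) : Generator)
  rw [Finsupp.single_eq_same] at h2
  exact one_ne_zero h2

theorem generated_of_ind (C : Comparison) (S : Set Generator) (D : ℕ∞)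
    (h : Ind C.x (cut S D)) : Generated C S D := by
  intro ι _ _ M hM
  exact le_antisymm (conj_le one_le_degree M (C.x.mem M))
    (gal_le_conj one_le_degree C.x (tau_tr C) _ h M fun l hl => mem_cut hM l hl)

theorem torsor_of_generated (C : Comparison) (S : Set Generator) (D : ℕ∞)
    (h : Generated C S D) : NoSmallerTorsor C S D := by
  intro ι _ _ M hM X hX hX' hx
  exact gal_subset (C.x.mem M) (h ι M hM).ge hX hX' hx

theorem full_of_torsor (C : Comparison) (S : Set Generator) (D : ℕ∞)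
    (h : NoSmallerTorsor C S D) : FullyFaithful C S D := by
  intro ι κ _ _ _ _ M M' hM FB FdR hF
  exact full one_le_degree C.x M M' (fun X hX hX' hx => h _ _ hM X hX hX' hx) FB FdR hF

theorem ind_of_full' (C : Comparison) (S : Set Generator) (D : ℕ∞)
    (h : FullyFaithful C S D) : Ind C.x (cut S D) := by
  refine ind_of_full one_le_degree C.x _ fun d r hr hS hr0 F F' hF => ?_
  obtain ⟨l₀, hl₀⟩ := Finsupp.support_nonempty_iff.2 hr0
  have hdD : ((d : ℕ) : ℕ∞) ≤ D := by
    rw [← hr l₀ hl₀]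
    exact (hS l₀ hl₀).2
  refine h Unit Bool _ _ ⟨?_, ?_⟩ F F' hF
  · intro l hl
    refine (hS l ?_).1
    rw [Finsupp.mem_support_iff]
    intro h1
    apply hl
    ext i j
    rcases i with i | i <;> rcases j with j | j
    · rfl
    · rfl
    · rfl
    · change (cls degree d r hr).N l i j = 0
      simp [cls, h1]
  · intro i j
    refine le_trans ?_ hdD
    rw [Nat.cast_le]
    rcases i with i | i | i <;> rcases j with j | j | j <;>
      simp [Mot.sum, pur, cls]

theorem tfae (C : Comparison) (S : Set Generator) (D : ℕ∞) :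
    List.TFAE [OddIrrational S D, Generated C S D, NoSmallerTorsor C S D,
      FullyFaithful C S D] := by
  tfae_have 1 → 2 := fun h => generated_of_ind C S D (ind_of_irr C S D h)
  tfae_have 2 → 3 := torsor_of_generated C S D
  tfae_have 3 → 4 := full_of_torsor C S D
  tfae_have 4 → 1 := fun h => irr_of_ind C S D (ind_of_full' C S D h)
  tfae_finish

theorem period_iff (C : Comparison) (S : Set Generator) (D : ℕ∞) :
    PeriodConjecture C S D ↔ OddIrrational S D ∧ ClosuresAreTorsors C S D := by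
  constructor
  · intro h
    refine ⟨((tfae C S D).out 2 0).1 ?_, ?_⟩
    · intro ι _ _ M hM X hX _ hx g hg
      obtain ⟨P, rfl⟩ := hX
      intro p hp
      exact h ι M hM p (hx p hp) g hg
    · intro ι _ _ M hM
      exact closure_heap one_le_degree M (C.x.mem M) (h ι M hM)
  · rintro ⟨h1, h2⟩ ι _ _ M hM p hp g hg
    have h0 : NoSmallerTorsor C S D := ((tfae C S D).out 0 2).1 h1
    exact h0 ι M hM _ (closure_rat _) (h2 ι M hM) (mem_closure _) hg p hp

theorem irr_six : OddIrrational Set.univ 6 := by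
  intro k _ hk
  have h1 : 2 * k + 3 ≤ 6 := by exact_mod_cast hk
  have : k = 0 ∨ k = 1 := by omega
  rcases this with rfl | rfl
  · exact zeta_three
  · exact zeta_five

theorem irr_eight : OddIrrational Set.univ 8 ↔ Irrational (zeta 7) := by
  constructor
  · intro h
    exact h 2 trivial (by norm_num)
  · intro h k _ hk
    have h1 : 2 * k + 3 ≤ 8 := by exact_mod_cast hk
    have : k = 0 ∨ k = 1 ∨ k = 2 := by omega
    rcases this with rfl | rfl | rfl
    · exact zeta_three
    · exact zeta_five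
    · exact h

theorem nonempty_comparison : Nonempty Comparison := by
  have henc : Encodable Generator := Encodable.ofCountable _
  set τ : ℂˣ := Units.mk0 (1 / (2 * Real.pi * Complex.I)) (by
    have hpi : (Real.pi : ℂ) ≠ 0 := by exact_mod_cast Real.pi_ne_zero
    exact one_div_ne_zero (mul_ne_zero (mul_ne_zero two_ne_zero hpi) Complex.I_ne_zero)) with hτ
  set z : Generator → ℂ := fun l => match l with
    | .inl p => Real.log p * τ
    | .inr k => mu (k + 2) * (τ : ℂ) ^ (k + 2) with hz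
  have h1 := pnt_tau one_le_degree z τ
  refine ⟨⟨pnt one_le_degree z τ, ⟨1, one_ne_zero, ?_⟩, fun k => ⟨1, 0, one_ne_zero, ?_⟩,
    fun p => ⟨1, 0, one_ne_zero, ?_⟩⟩⟩
  · rw [h1, hτ, Units.val_mk0, Rat.cast_one]
  · rw [h1, pnt_per, hz]
    push_cast
    ring
  · rw [h1, pnt_per, hz]
    push_cast
    ring

/-- there is a large set of generators, with all even degrees, for which the odd zeta values are irrational -/
theorem exists_generators : ∃ S : Set Generator, (∀ p, .inl p ∈ S) ∧ (∀ k, .inr (2 * k) ∈ S) ∧ .inr 1 ∈ S ∧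
    .inr 3 ∈ S ∧
    (∀ s : ℕ, Odd s → ∃ k : ℕ, .inr (2 * k + 1) ∈ S ∧ s + 2 ≤ 2 * k + 3 ∧ 5 * (2 * k + 3) < 18 * s) ∧
    OddIrrational S ⊤ := by
  set S : Set Generator := {l | ∀ k : ℕ, l = .inr (2 * k + 1) → Irrational (zeta (2 * k + 3))} with hS
  have hirr : OddIrrational S ⊤ := fun k hk _ => hk k rfl
  refine ⟨S, fun p k h => by simp at h, fun j k hk => ?_, fun k hk => ?_, fun k hk => ?_, fun s hs => ?_, hirr⟩
  · have : 2 * j = 2 * k + 1 := by simpa using hk
    omega
  · have : 1 = 2 * k + 1 := by simpa using hk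
    have : k = 0 := by omega
    subst this
    exact zeta_three
  · have : 3 = 2 * k + 1 := by simpa using hk
    have : k = 1 := by omega
    subst this
    exact zeta_five
  · obtain ⟨j, hj, h1, h2, h3⟩ := zeta_odd s hs
    obtain ⟨m, rfl⟩ := hs
    obtain ⟨i, rfl⟩ := hj
    have hi : 1 ≤ i := by omega
    refine ⟨i - 1, ?_, by omega, by omega⟩
    intro k hk
    have hk' : 2 * (i - 1) + 1 = 2 * k + 1 := by simpa using hk
    rw [show 2 * k + 3 = 2 * i + 1 by omega]
    exact h3

end Pool.Agent.H56Q
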